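import Pool.Agent.Run7.h573.FK.Iface

set_option autoImplicit false

namespace Pool.Agent.Run7.h719.FK

open Topology Filter Set
open scoped Ordinal

/-- The countable ordinals, as a type in `Type`. -/
abbrev A : Type := (ω₁ : Ordinal.{0}).ToType

theorem bound (x : ℕ → A) : ∃ y : A, ∀ k, x k < y := by
  have hlim : Order.IsSuccLimit (ω₁ : Ordinal.{0}) := Cardinal.isSuccLimit_omega 1
  set f : ℕ → Ordinal.{0} := fun k => ((Ordinal.ToType.mk.symm (x k) : Set.Iio (ω₁ : Ordinal.{0})) :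
    Ordinal.{0}) with hf
  have hf1 : ∀ k, f k < ω₁ := fun k => (Ordinal.ToType.mk.symm (x k)).2
  have hs : ⨆ k, f k < ω₁ := Ordinal.iSup_lt_omega_one hf1
  have hs' : Order.succ (⨆ k, f k) < ω₁ := hlim.succ_lt hs
  refine ⟨Ordinal.ToType.mk ⟨_, hs'⟩, fun k => ?_⟩
  have h1 : (Ordinal.ToType.mk.symm (x k) : Set.Iio (ω₁ : Ordinal.{0})) <
      ⟨Order.succ (⨆ k, f k), hs'⟩ := by
    change f k < Order.succ (⨆ k, f k)
    exact lt_of_le_of_lt (Ordinal.le_iSup f k) (Order.lt_succ _)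
  have h2 := (Ordinal.ToType.mk (o := ω₁)).lt_iff_lt.mpr h1
  rwa [OrderIso.apply_symm_apply] at h2

theorem t_P5 : Pool.Agent.Run7.h573.FK.S_P5 := by
  classical
  have hne : Nonempty A := ⟨Ordinal.ToType.mk ⟨0, Ordinal.omega_pos 1⟩⟩
  letI : OrderBot A := WellFoundedLT.toOrderBot A
  letI : ConditionallyCompleteLinearOrderBot A :=
    WellFoundedLT.conditionallyCompleteLinearOrderBot A
  letI : TopologicalSpace (WithTop A) := Preorder.topology (WithTop A)
  haveI : OrderTopology (WithTop A) := ⟨rfl⟩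
  have hbdd : ∀ a : ℕ → WithTop A, (∀ k, a k < ⊤) → ∃ s < (⊤ : WithTop A), ∀ k, a k ≤ s := by
    intro a ha
    have : ∀ k, ∃ x : A, (x : WithTop A) = a k := fun k => WithTop.ne_top_iff_exists.mp (ha k).ne
    choose x hx using this
    obtain ⟨y, hy⟩ := bound x
    refine ⟨y, WithTop.coe_lt_top y, fun k => ?_⟩
    rw [← hx k]
    exact WithTop.coe_le_coe.mpr (hy k).le
  refine ⟨WithTop A, inferInstance, inferInstance, inferInstance, inferInstance, inferInstance, ?_⟩
  exact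
    { mono := fun a hm ha => by
        obtain ⟨s, hs, hs'⟩ := hbdd a ha
        exact ⟨⨆ k, a k, lt_of_le_of_lt (iSup_le hs') hs, tendsto_atTop_iSup hm,
          fun k => le_iSup a k⟩
      bdd := hbdd
      top := fun s hs => by
        obtain ⟨x, rfl⟩ := WithTop.ne_top_iff_exists.mp hs.ne
        obtain ⟨y, hy⟩ := bound fun _ => x
        exact ⟨y, WithTop.coe_lt_coe.mpr (hy 0), WithTop.coe_lt_top y⟩
      ne := ⟨((⊥ : A) : WithTop A), WithTop.coe_lt_top _⟩ }

end Pool.Agent.Run7.h719.FK
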