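import Pool.Agent.Run7.h573.FK.Iface

set_option autoImplicit false

namespace Pool.Agent.Run7.h719.FK

open Topology Filter Set

theorem t_P3 : Pool.Agent.Run7.h573.FK.S_P3 := by
  classical
  intro s hs
  -- the partial sums attached to `b : ℕ → Bool`
  set S : (ℕ → Bool) → ℕ → ℤ := fun b k => ∑ n ∈ (s k).support, (if b n = true then s k n else 0)
    with hS
  have hSb : ∀ b : ℕ → Bool, ∀ᶠ k in atTop, S b k = 0 := by
    intro b
    filter_upwards [hs {n | b n = true}] with k hk
    rw [← hk]
    rw [hS]
    unfold Finsupp.sum
    refine Finset.sum_congr rfl fun n _ => ?_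
    by_cases h : b n = true
    · simp [h]
    · simp [h]
  have hcl : ∀ N : ℕ, IsClosed {b : ℕ → Bool | ∀ k, N ≤ k → S b k = 0} := by
    intro N
    have : {b : ℕ → Bool | ∀ k, N ≤ k → S b k = 0} = ⋂ k, ⋂ (_ : N ≤ k), {b | S b k = 0} := by
      ext b
      simp
    rw [this]
    refine isClosed_iInter fun k => isClosed_iInter fun _ => ?_
    have hc : Continuous fun b : ℕ → Bool => S b k := by
      rw [hS]
      refine continuous_finset_sum _ fun n _ => ?_
      exact (continuous_of_discreteTopology (f := fun c : Bool => if c = true then s k n else 0)).comp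
        (continuous_apply n)
    exact isClosed_eq hc continuous_const
  have hcov : (⋃ N : ℕ, {b : ℕ → Bool | ∀ k, N ≤ k → S b k = 0}) = univ := by
    refine eq_univ_of_forall fun b => ?_
    obtain ⟨N, hN⟩ := eventually_atTop.mp (hSb b)
    exact mem_iUnion.mpr ⟨N, hN⟩
  obtain ⟨N, b0, hb0⟩ := nonempty_interior_of_iUnion_of_closed hcl hcov
  obtain ⟨U, hU1, hU2, hU3⟩ := mem_interior.mp hb0
  obtain ⟨I, u, hu1, hu2⟩ := isOpen_pi_iff.mp hU2 b0 hU3
  have hb0N := hU1 hU3
  -- outside `I`
  have hout : ∀ k, N ≤ k → ∀ n, n ∉ I → s k n = 0 := by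
    intro k hk n hn
    have hb1 : Function.update b0 n (!b0 n) ∈ U := by
      apply hu2
      intro m hm
      have : m ≠ n := fun h => hn (h ▸ hm)
      rw [Function.update_of_ne this]
      exact (hu1 m hm).2
    have h1 := hb0N k hk
    have h2 := hU1 hb1 k hk
    by_contra hne
    have hsupp : n ∈ (s k).support := Finsupp.mem_support_iff.mpr hne
    have h3 : S (Function.update b0 n (!b0 n)) k - S b0 k =
        (if (!b0 n) = true then s k n else 0) - (if b0 n = true then s k n else 0) := by
      rw [hS]
      simp only
      rw [← Finset.sum_sub_distrib, Finset.sum_eq_single n]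
      · rw [Function.update_self]
      · intro m _ hm
        rw [Function.update_of_ne hm, sub_self]
      · intro h
        exact absurd hsupp h
    rw [h1, h2] at h3
    cases hb : b0 n
    · simp [hb] at h3
      exact hne h3.symm
    · simp [hb] at h3
      exact hne h3
  -- inside `I`
  have hin : ∀ᶠ k in atTop, ∀ n ∈ I, s k n = 0 := by
    rw [Filter.eventually_all_finset]
    intro n _
    filter_upwards [hs {n}] with k hk
    by_contra hne
    apply hne
    have hsupp : n ∈ (s k).support := Finsupp.mem_support_iff.mpr hne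
    unfold Finsupp.sum at hk
    rw [Finset.sum_eq_single n] at hk
    · simpa using hk
    · intro m _ hm
      simp [hm]
    · intro h
      exact absurd hsupp h
  filter_upwards [hin, eventually_ge_atTop N] with k hk hkN
  ext n
  by_cases hn : n ∈ I
  · simpa using hk n hn
  · simpa using hout k hkN n hn

end Pool.Agent.Run7.h719.FK
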